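import Pool.Agent.H12R3.VR.Stmts

/-!
# Task `TaskLine` of project H12-VR
-/

set_option autoImplicit false

open Filter Topology

namespace Pool.Agent.H655R3.VR

open H12VR

theorem circle_compact : IsCompact {p : ℝ × ℝ | p.1 ^ 2 + p.2 ^ 2 = 1} := by
  have hcl : IsClosed {p : ℝ × ℝ | p.1 ^ 2 + p.2 ^ 2 = 1} :=
    isClosed_eq (by fun_prop) continuous_const
  have hcpt : IsCompact (Set.Icc (-1 : ℝ) 1 ×ˢ Set.Icc (-1 : ℝ) 1) :=
    isCompact_Icc.prod isCompact_Icc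
  refine hcpt.of_isClosed_subset hcl ?_
  rintro ⟨a, b⟩ h
  have h' : a ^ 2 + b ^ 2 = 1 := h
  refine ⟨⟨?_, ?_⟩, ?_, ?_⟩ <;> simp only <;> nlinarith [sq_nonneg a, sq_nonneg b,
    sq_nonneg (a - 1), sq_nonneg (a + 1), sq_nonneg (b - 1), sq_nonneg (b + 1)]

theorem taskLine : TaskLine := by
  intro f x₀ hf hP
  -- radii
  have hf1 : ∀ ε : ℝ, 0 < ε → ∃ δ : ℝ, 0 < δ ∧ ∀ x, |x - x₀| < δ → |f x - f x₀| < ε := by
    intro ε hε
    obtain ⟨δ, hδ, h⟩ := Metric.continuousAt_iff.1 hf ε hε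
    refine ⟨δ, hδ, fun x hx => ?_⟩
    have := h (x := x) (by rwa [Real.dist_eq])
    rwa [Real.dist_eq] at this
  obtain ⟨δ₀, hδ₀, h₀⟩ := hf1 1 one_pos
  obtain ⟨δ₁, hδ₁, h₁⟩ := hf1 (δ₀ / 2) (by positivity)
  set δ := min δ₁ (δ₀ / 2) with hδdef
  have hδ : 0 < δ := lt_min hδ₁ (by positivity)
  -- the key estimate
  have key : ∀ c : ℝ, 0 < c → ∃ a b : ℝ, a ^ 2 + b ^ 2 = 1 ∧
      ∀ x, |x - x₀| < δ → |b * (x - x₀) - a * (f x - f x₀)| ≤ c := by
    intro c hc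
    obtain ⟨P, ⟨⟨-, hA, hS⟩, e1, e2, e3⟩, hx0⟩ := hP c hc
    refine ⟨P 0, P 3, e1, fun x hx => ?_⟩
    obtain ⟨x', hx'⟩ := hS x
    have hx'' : ax P x' (f x') = x := hx'
    have hy' := hA x'
    rw [hx''] at hy'
    have hy0 := hA x₀
    rw [hx0] at hy0
    have E1 : x - x₀ = P 0 * (x' - x₀) + P 1 * (f x' - f x₀) := by
      have h1 : x = P 0 * x' + P 1 * f x' + P 2 := hx''.symm
      have h2 : x₀ = P 0 * x₀ + P 1 * f x₀ + P 2 := hx0.symm
      linear_combination h1 - h2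
    have E2 : f x - f x₀ = P 3 * (x' - x₀) + P 4 * (f x' - f x₀) := by
      have h1 : f x = P 3 * x' + P 4 * f x' + P 5 := hy'
      have h2 : f x₀ = P 3 * x₀ + P 4 * f x₀ + P 5 := hy0
      linear_combination h1 - h2
    have hN : (x - x₀) ^ 2 + (f x - f x₀) ^ 2 =
        (x' - x₀) ^ 2 + c ^ 2 * (f x' - f x₀) ^ 2 := by
      rw [E1, E2]
      linear_combination (x' - x₀) ^ 2 * e1 + (f x' - f x₀) ^ 2 * e2 +
        2 * (x' - x₀) * (f x' - f x₀) * e3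
    have hu' : |x' - x₀| < δ₀ := by
      have h3 : |x - x₀| < δ₀ / 2 := lt_of_lt_of_le hx (min_le_right _ _)
      have h4 : |f x - f x₀| < δ₀ / 2 := h₁ x (lt_of_lt_of_le hx (min_le_left _ _))
      have h5 : (x' - x₀) ^ 2 < δ₀ ^ 2 := by
        have h6 : (x - x₀) ^ 2 < (δ₀ / 2) ^ 2 := by
          rw [← sq_abs]; exact pow_lt_pow_left₀ h3 (abs_nonneg _) two_ne_zero
        have h7 : (f x - f x₀) ^ 2 < (δ₀ / 2) ^ 2 := by
          rw [← sq_abs (f x - f x₀)]; exact pow_lt_pow_left₀ h4 (abs_nonneg _) two_ne_zero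
        have h8 : 0 ≤ c ^ 2 * (f x' - f x₀) ^ 2 := by positivity
        nlinarith
      exact abs_lt_of_sq_lt_sq h5 hδ₀.le
    have hg' : |f x' - f x₀| < 1 := h₀ x' hu'
    have hdet : (P 3 * P 1 - P 0 * P 4) ^ 2 = c ^ 2 := by
      linear_combination (P 1 ^ 2 + P 4 ^ 2) * e1 + e2 - (P 0 * P 1 + P 3 * P 4) * e3
    have hdet' : |P 3 * P 1 - P 0 * P 4| = c := by
      rw [← abs_of_pos hc]
      exact (sq_eq_sq_iff_abs_eq_abs _ _).1 hdet
    have E3 : P 3 * (x - x₀) - P 0 * (f x - f x₀) =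
        (P 3 * P 1 - P 0 * P 4) * (f x' - f x₀) := by
      rw [E1, E2]; ring
    rw [E3, abs_mul, hdet']
    nlinarith [abs_nonneg (f x' - f x₀)]
  choose! a b hab hkey using key
  -- a limit direction
  obtain ⟨⟨a₀, b₀⟩, hp, φ, hφ, hlim⟩ := circle_compact.tendsto_subseq
    (x := fun n : ℕ => (a (1 / ((n : ℝ) + 1)), b (1 / ((n : ℝ) + 1))))
    (fun n => hab _ Nat.one_div_pos_of_nat)
  have hp' : a₀ ^ 2 + b₀ ^ 2 = 1 := hp
  have hla : Tendsto (fun n : ℕ => a (1 / ((φ n : ℝ) + 1))) atTop (𝓝 a₀) :=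
    (continuous_fst.tendsto _).comp hlim
  have hlb : Tendsto (fun n : ℕ => b (1 / ((φ n : ℝ) + 1))) atTop (𝓝 b₀) :=
    (continuous_snd.tendsto _).comp hlim
  have hc0 : Tendsto (fun n : ℕ => 1 / ((φ n : ℝ) + 1)) atTop (𝓝 0) :=
    tendsto_one_div_add_atTop_nhds_zero_nat.comp hφ.tendsto_atTop
  have hline : ∀ x, |x - x₀| < δ → b₀ * (x - x₀) - a₀ * (f x - f x₀) = 0 := by
    intro x hx
    have h1 : Tendsto (fun n : ℕ => |b (1 / ((φ n : ℝ) + 1)) * (x - x₀) -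
        a (1 / ((φ n : ℝ) + 1)) * (f x - f x₀)|) atTop
        (𝓝 |b₀ * (x - x₀) - a₀ * (f x - f x₀)|) :=
      ((hlb.mul_const _).sub (hla.mul_const _)).abs
    have h2 : |b₀ * (x - x₀) - a₀ * (f x - f x₀)| ≤ 0 :=
      le_of_tendsto_of_tendsto' h1 hc0 (fun n => hkey _ Nat.one_div_pos_of_nat x hx)
    exact abs_nonpos_iff.1 h2
  have ha0 : a₀ ≠ 0 := by
    intro h0
    have h1 := hline (x₀ + δ / 2) (by
      rw [add_sub_cancel_left, abs_of_pos (by positivity)]; linarith)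
    rw [h0, zero_mul, sub_zero, add_sub_cancel_left] at h1
    have h2 : b₀ = 0 := by
      rcases mul_eq_zero.1 h1 with h | h
      · exact h
      · linarith
    rw [h0, h2] at hp'
    norm_num at hp'
  refine ⟨b₀ / a₀, δ, hδ, fun x hx => ?_⟩
  have h1 := hline x hx
  field_simp
  linarith

/-- the task -/
theorem t : H12VR.TaskLine := taskLine

end Pool.Agent.H655R3.VR
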